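import Pool.Agent.Lib.MP_068a93_gt.Levels

set_option autoImplicit false

open TopologicalSpace Topology

namespace Pool.Agent.Results.MP_068a93_gt.DimPlusTwo

/-- Covering dimension at most `k`: every finite open cover has an open shrinking that still
covers and in which every point lies in at most `k + 1` members. -/
def DimLE (S : Type) [TopologicalSpace S] (k : ℕ) : Prop :=
  ∀ (j : ℕ) (U : Fin j → Set S), (∀ i, IsOpen (U i)) → (⋃ i, U i) = Set.univ →
    ∃ V : Fin j → Set S, (∀ i, IsOpen (V i)) ∧ (∀ i, V i ⊆ U i) ∧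
      (⋃ i, V i) = Set.univ ∧ ∀ x : S, Set.ncard {i : Fin j | x ∈ V i} ≤ k + 1

/-- Every metric compactification of a space of dimension at most `m` follows a metric
compactification of dimension at most `m + 2`. -/
theorem result (X : Type) [TopologicalSpace X] (m : ℕ) (hX : DimLE X m)
    (K : Type) [TopologicalSpace K] [CompactSpace K] [MetrizableSpace K]
    (c : X → K) (hc : IsEmbedding c) (hcd : DenseRange c) :
    ∃ (L : Type) (_ : TopologicalSpace L), CompactSpace L ∧ MetrizableSpace L ∧
      ∃ d : X → L, IsEmbedding d ∧ DenseRange d ∧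
        (∃ f : K → L, Continuous f ∧ f ∘ c = d) ∧ DimLE L (m + 2) := by
  have hXm : MetrizableSpace X := hc.metrizableSpace
  let _ : MetricSpace K := TopologicalSpace.metrizableSpaceMetric K
  have : Countable (ℕ ×ₗ ℕ) := inferInstanceAs (Countable (ℕ × ℕ))
  obtain ⟨F, hF, hfib, hdim⟩ :=
    Pool.Agent.Lib.MP_068a93_gt.exists_map (K := K) (X := X) (m := m) hX hc.isInducing
  have hLc : CompactSpace (Set.range F) := isCompact_iff_compactSpace.1 (isCompact_range hF)
  let f : K → Set.range F := Set.rangeFactorization F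
  have hf : Continuous f := hF.subtype_mk _
  have hfs : Function.Surjective f := Set.rangeFactorization_surjective
  have hfib' : ∀ x z, f z = f (c x) → z = c x := fun x z e =>
    hfib x z (congrArg Subtype.val e)
  refine ⟨Set.range F, inferInstance, hLc, inferInstance, f ∘ c, ?_,
    hfs.denseRange.comp hcd hf, ⟨f, hf, rfl⟩, hdim⟩
  refine ⟨?_, fun x y e => hc.injective (hfib' y (c x) e)⟩
  rw [isInducing_iff_nhds]
  intro x
  refine le_antisymm ((hf.comp hc.continuous).tendsto x).le_comap ?_
  intro s hs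
  rw [hc.isInducing.nhds_eq_comap, Filter.mem_comap] at hs
  obtain ⟨t, ht, hts⟩ := hs
  obtain ⟨O, hOt, hO, hxO⟩ := mem_nhds_iff.1 ht
  refine Filter.mem_comap.2 ⟨(f '' Oᶜ)ᶜ, ?_, ?_⟩
  · refine ((hO.isClosed_compl.isCompact.image hf).isClosed.isOpen_compl).mem_nhds ?_
    rintro ⟨z, hz, e⟩
    exact hz (hfib' x z e ▸ hxO)
  · intro y hy
    refine hts (hOt ?_)
    by_contra hcon
    exact hy ⟨c y, hcon, rfl⟩

end Pool.Agent.Results.MP_068a93_gt.DimPlusTwo
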